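import Pool.Agent.H16.NV.Stm

/-! Part OUT of crew NV: shifts outside the simplex. -/

set_option autoImplicit false

open MeasureTheory Set
open scoped ENNReal NNReal

namespace Pool.Agent.H32.NV

open Pool.Agent.H16.NV

theorem simp_vol_ne_top (n : ℕ) : volume (Simp n) ≠ ∞ := by
  have : Simp n ⊆ Set.pi univ (fun _ => Icc (0:ℝ) 1) := by
    intro x hx i _
    refine ⟨hx.1 i, ?_⟩
    exact (Finset.single_le_sum (fun j _ => hx.1 j) (Finset.mem_univ i)).trans hx.2
  refine ne_top_of_le_ne_top ?_ (measure_mono this)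
  rw [volume_pi_pi]
  simp

theorem simp_meas (n : ℕ) : MeasurableSet (Simp n) := by
  have h1 : IsClosed (Simp n) := by
    have e : Simp n = (⋂ i, {z : Fin n → ℝ | 0 ≤ z i}) ∩ {z | ∑ i, z i ≤ 1} := by
      ext z
      simp [Simp]
    rw [e]
    exact (isClosed_iInter fun i => isClosed_le continuous_const (continuous_apply i)).inter
      (isClosed_le (continuous_finsetSum _ fun i _ => continuous_apply i) continuous_const)
  exact h1.measurableSet

/-- half open cubes -/
def cube {n : ℕ} (u : Fin n → ℝ) (k : ℕ) : Set (Fin n → ℝ) :=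
  Set.pi univ fun j => Ioc (k * u j - 1) (k * u j)

theorem cube_vol {n : ℕ} (u : Fin n → ℝ) (k : ℕ) : volume (cube u k) = 1 := by
  unfold cube
  rw [volume_pi_pi]
  simp

theorem cube_meas {n : ℕ} (u : Fin n → ℝ) (k : ℕ) : MeasurableSet (cube u k) :=
  MeasurableSet.univ_pi fun _ => measurableSet_Ioc

theorem out_aux {n : ℕ} {p : ℝ} (hp : 0 < p) {ξ u : Fin n → ℝ} {δ : ℝ} (hδ : 0 < δ) (i : Fin n)
    (hi : u i = 1 ∨ u i = -1)
    (h : ∀ x ∈ Simp n, ∑ j, x j * u j + δ ≤ ∑ j, ξ j * u j) : In p (Simp n) ξ = ∞ := by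
  obtain ⟨K, hK⟩ := exists_nat_ge ((∑ j, |ξ j|) / δ)
  rw [div_le_iff₀ hδ] at hK
  set E : Set (Fin n → ℝ) := ⋃ k : ℕ, cube u (k + K) with hE
  have hEm : MeasurableSet E := MeasurableSet.iUnion fun k => cube_meas u _
  have hEv : volume E = ∞ := by
    rw [hE, measure_iUnion _ (fun k => cube_meas u _)]
    · simp only [cube_vol]
      exact ENNReal.tsum_const_eq_top_of_ne_zero one_ne_zero
    · rw [pairwise_disjoint_on]
      intro k l hkl
      rw [Set.disjoint_left]
      intro y hy1 hy2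
      have a1 := hy1 i (mem_univ i)
      have a2 := hy2 i (mem_univ i)
      simp only [mem_Ioc] at a1 a2
      have hkl' : (k : ℝ) + 1 ≤ l := by exact_mod_cast hkl
      push_cast at a1 a2
      rcases hi with hi | hi <;> rw [hi] at a1 a2
      · linarith [a1.1, a1.2, a2.1, a2.2]
      · linarith [a1.1, a1.2, a2.1, a2.2]
  set V : ℝ≥0∞ := volume (Simp n) with hV
  have hVt : V ≠ ∞ := simp_vol_ne_top n
  have hp' : 0 ≤ 1 / p := by positivity
  have hbound : ∀ y ∈ E, (V ^ (1 / p))⁻¹ ≤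
      ENNReal.ofReal (Real.exp (∑ i, ξ i * y i)) * ((Jn p (Simp n) y) ^ (1 / p))⁻¹ := by
    intro y hy
    obtain ⟨k, hk⟩ := mem_iUnion.1 hy
    have hyj : ∀ j, ((k + K : ℕ) : ℝ) * u j - 1 < y j ∧ y j ≤ ((k + K : ℕ) : ℝ) * u j :=
      fun j => hk j (mem_univ j)
    set m : ℝ := ((k + K : ℕ) : ℝ) with hm
    have hmK : (K : ℝ) ≤ m := by
      rw [hm]; push_cast
      have : (0 : ℝ) ≤ k := Nat.cast_nonneg k
      linarith
    have hm0 : 0 ≤ m := by rw [hm]; positivity
    have claim : ∀ x ∈ Simp n, ∑ j, x j * y j ≤ ∑ j, ξ j * y j := by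
      intro x hx
      have h1 : ∑ j, x j * y j ≤ m * ∑ j, x j * u j := by
        rw [Finset.mul_sum]
        refine Finset.sum_le_sum fun j _ => ?_
        have := mul_le_mul_of_nonneg_left (hyj j).2 (hx.1 j)
        linarith
      have h2 : m * (∑ j, ξ j * u j) - ∑ j, |ξ j| ≤ ∑ j, ξ j * y j := by
        rw [Finset.mul_sum, ← Finset.sum_sub_distrib]
        refine Finset.sum_le_sum fun j _ => ?_
        have e1 : |ξ j * (y j - m * u j)| ≤ |ξ j| * 1 := by
          rw [abs_mul]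
          refine mul_le_mul_of_nonneg_left ?_ (abs_nonneg _)
          rw [abs_le]
          constructor <;> linarith [(hyj j).1, (hyj j).2]
        have e2 := neg_abs_le (ξ j * (y j - m * u j))
        nlinarith
      have h3 := mul_le_mul_of_nonneg_left (h x hx) hm0
      have h4 := mul_le_mul_of_nonneg_right hmK hδ.le
      nlinarith
    have hJ : Jn p (Simp n) y ≤ ENNReal.ofReal (Real.exp (p * ∑ i, ξ i * y i)) * V := by
      unfold Jn
      calc ∫⁻ x in Simp n, ENNReal.ofReal (Real.exp (p * ∑ i, x i * y i))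
          ≤ ∫⁻ _x in Simp n, ENNReal.ofReal (Real.exp (p * ∑ i, ξ i * y i)) := by
            refine setLIntegral_mono' (simp_meas n) fun x hx => ?_
            exact ENNReal.ofReal_le_ofReal
              (Real.exp_le_exp.2 (mul_le_mul_of_nonneg_left (claim x hx) hp.le))
        _ = _ := by rw [setLIntegral_const]
    have hJ2 : (Jn p (Simp n) y) ^ (1 / p) ≤
        ENNReal.ofReal (Real.exp (∑ i, ξ i * y i)) * V ^ (1 / p) := by
      refine (ENNReal.rpow_le_rpow hJ hp').trans ?_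
      rw [ENNReal.mul_rpow_of_nonneg _ _ hp', ENNReal.ofReal_rpow_of_pos (Real.exp_pos _),
        ← Real.exp_mul]
      have : p * (∑ i, ξ i * y i) * (1 / p) = ∑ i, ξ i * y i := by field_simp
      rw [this]
    have hne : ENNReal.ofReal (Real.exp (∑ i, ξ i * y i)) ≠ 0 := by
      rw [Ne, ENNReal.ofReal_eq_zero, not_le]
      exact Real.exp_pos _
    calc (V ^ (1 / p))⁻¹ = ENNReal.ofReal (Real.exp (∑ i, ξ i * y i)) *
          (ENNReal.ofReal (Real.exp (∑ i, ξ i * y i)) * V ^ (1 / p))⁻¹ := by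
            rw [ENNReal.mul_inv (Or.inl hne) (Or.inl ENNReal.ofReal_ne_top), ← mul_assoc,
              ENNReal.mul_inv_cancel hne ENNReal.ofReal_ne_top, one_mul]
      _ ≤ _ := by gcongr
  have hc : (V ^ (1 / p))⁻¹ ≠ 0 := ENNReal.inv_ne_zero.2 (ENNReal.rpow_ne_top_of_nonneg hp' hVt)
  rw [eq_top_iff]
  calc (∞ : ℝ≥0∞) = (V ^ (1 / p))⁻¹ * volume E := by rw [hEv, ENNReal.mul_top hc]
    _ = ∫⁻ _y in E, (V ^ (1 / p))⁻¹ := by rw [setLIntegral_const]
    _ ≤ ∫⁻ y in E, ENNReal.ofReal (Real.exp (∑ i, ξ i * y i)) *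
          ((Jn p (Simp n) y) ^ (1 / p))⁻¹ := setLIntegral_mono' hEm hbound
    _ ≤ In p (Simp n) ξ := setLIntegral_le_lintegral _ _

theorem t_OUT : S_OUT := by
  intro n p hp ξ hξ
  by_cases h1 : ∀ i, 0 ≤ ξ i
  · have h2 : 1 < ∑ i, ξ i := by
      by_contra h
      exact hξ ⟨h1, not_lt.1 h⟩
    have hn : Nonempty (Fin n) := by
      by_contra h
      rw [not_nonempty_iff] at h
      rw [Fintype.sum_empty] at h2
      linarith
    obtain ⟨i⟩ := hn
    refine out_aux hp (u := fun _ => 1) (δ := (∑ i, ξ i) - 1) (by linarith) i (Or.inl rfl) ?_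
    intro x hx
    have := hx.2
    simp only [mul_one]
    linarith
  · push Not at h1
    obtain ⟨i, hi⟩ := h1
    refine out_aux hp (u := fun j => if j = i then -1 else 0) (δ := - ξ i) (by linarith) i
      (Or.inr (by simp)) ?_
    intro x hx
    have := hx.1 i
    simp
    linarith

end Pool.Agent.H32.NV
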