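import Pool.Agent.H16.NV.Stm

/-! Part SPC of crew NV: the speed function is continuous. -/

set_option autoImplicit false

open MeasureTheory Set
open scoped ENNReal NNReal

namespace Pool.Agent.H32.NV

open Pool.Agent.H16.NV

theorem t_SPC : S_SPC := by
  intro m d
  unfold spd
  refine NNReal.continuous_coe.comp ?_
  refine Continuous.finset_sup_apply fun a _ => ?_
  refine continuous_real_toNNReal.comp ?_
  by_cases h : d a.succ.succ < 0
  · simp only [h, if_true]
    exact (continuous_apply a).div_const _
  · simp only [h, if_false]
    exact continuous_const

end Pool.Agent.H32.NV
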